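import Pool.Agent.R896.MB.Asm
import Pool.Agent.R896.MB.Tail
import Pool.Agent.R896.MB.Mono
import Pool.Agent.R896.MB.Fin
import Pool.Agent.R896.MB.Blk
import Pool.Agent.R896.MB.Bin
import Pool.Agent.R896.MB.Comb1
import Pool.Agent.R896.MB.Comb2
import Pool.Agent.R896.MB.Lo
import Pool.Agent.R896.MB.Up

/-! The second-order term of the critical probability of majority bootstrap percolation on the
distance-k hypercube (MP_b06f47_pr, Q1): the conjectured order is correct.

Definitions (in `Pool.Agent.R896.MB.Defs` and `Pool.Agent.R896.DC.Defs`): `Vx n = Fin n → Bool`;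
`nb k v` is the set of the vertices at Hamming distance `1, ..., k` from `v`; `deg k n = N`;
`step k A` adds to `A` the vertices `v` with `N ≤ 2 |nb k v ∩ A|`; `A0 ω` is the set of the vertices
whose bit is `true`; `Perc k ω`: some iterate of `step k` applied to `A0 ω` is everything; `Pr p S` is
the probability of `S` for independent bits; `pc k n` is the supremum of the `p ∈ (0,1)` for which
percolation has probability at most `1/2`. -/

set_option autoImplicit false

namespace Pool.Agent.Results.MP_b06f47_pr.SecondOrderTerm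

open Pool.Agent.R896.MB

/-- For every `k ≥ 2` there are constants `0 < c ≤ C` such that for all large `n`
`1/2 - C √(log n) / n^(k/2) ≤ p_c(Q_{k,n}, N/2) ≤ 1/2 - c √(log n) / n^(k/2)`. -/
theorem result (k : ℕ) (hk : 2 ≤ k) :
    ∃ c C : ℝ, 0 < c ∧ c ≤ C ∧ ∃ n0 : ℕ, ∀ n : ℕ, n0 ≤ n →
      1 / 2 - C * (Real.sqrt (Real.log n) / (n : ℝ) ^ ((k : ℝ) / 2)) ≤ pc k n ∧
      pc k n ≤ 1 / 2 - c * (Real.sqrt (Real.log n) / (n : ℝ) ^ ((k : ℝ) / 2)) :=
  assemble k mono (lo k hk tail (comb1 k hk))
    (up k hk tail fin (bin blk) (comb1 k hk) (comb2 k hk))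

end Pool.Agent.Results.MP_b06f47_pr.SecondOrderTerm
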